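import Pool.Agent.Lib.MP_7f0846_co.Main

namespace Pool.Agent.Results.MP_7f0846_co.Counterexample

open Pool.Agent.Lib.MP_7f0846_co

/-- The conjecture of Van Rees fails in dimension three: there is an `n` not coprime to
`(2 ^ 3 - 1)!` for which `n ^ 2` mutually non-attacking queens fit on the `n × n × n` board. -/
theorem result : ∃ n : ℕ, 1 ≤ n ∧ 1 < Nat.gcd n (2 ^ 3 - 1).factorial ∧ HasSolution n 3 :=
  ⟨NN, by decide +kernel, by decide +kernel, hasSolution_NN⟩

end Pool.Agent.Results.MP_7f0846_co.Counterexample
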