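import Mathlib

/-! A necessary condition for a full placement of queens on the toroidal board `(ℤ / n) ^ d`. -/

namespace Pool.Agent.Results.MP_7f0846_co.TorusNecessary

open Finset

theorem result (d n r : ℕ) (hd : 1 ≤ d) (hn : 1 ≤ n) (hrn : r ∣ n) (hr : r < 2 ^ d)
    (S : Finset (Fin d → ZMod n)) (hS : S.card = n ^ (d - 1))
    (hA : ∀ a ∈ S, ∀ b ∈ S, ∀ (k : ZMod n) (ε : Fin d → ℤ), ε ≠ 0 →
      (∀ i, ε i = -1 ∨ ε i = 0 ∨ ε i = 1) → (∀ i, b i - a i = k * (ε i : ZMod n)) → a = b) :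
    r ^ d ∣ n ^ (d - 1) := by
  classical
  have : NeZero n := ⟨by omega⟩
  have : NeZero r := ⟨fun h => by rw [h, zero_dvd_iff] at hrn; omega⟩
  let π := ZMod.castHom hrn (ZMod r)
  let ψ : AddChar (ZMod r) ℂ := ZMod.stdAddChar
  have hψ : ψ.IsPrimitive := ZMod.isPrimitive_stdAddChar r
  have hprod : ∀ y : Fin d → ZMod r, ψ (∑ i, y i) = ∏ i, ψ (y i) := fun y => by
    induction (univ : Finset (Fin d)) using Finset.induction_on with
    | empty => simp
    | insert a s ha ih => rw [sum_insert ha, prod_insert ha, AddChar.map_add_eq_mul, ih]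
  have key : ∀ ξ : Fin d → ZMod r, ξ ≠ 0 → ∑ s ∈ S, ψ (∑ i, ξ i * π (s i)) = 0 := by
    intro ξ hξ
    obtain ⟨A, B, hAB, hsum⟩ := Fintype.exists_ne_map_eq_of_card_lt
      (fun A : Fin d → Fin 2 => ∑ i, ξ i * (((A i : ℕ) : ℤ) : ZMod r))
      (by simpa [ZMod.card] using hr)
    obtain ⟨ε, hε⟩ : ∃ ε : Fin d → ℤ, ∀ i, ε i = ((A i : ℕ) : ℤ) - ((B i : ℕ) : ℤ) :=
      ⟨_, fun _ => rfl⟩
    have h1 : ∀ i, ε i = -1 ∨ ε i = 0 ∨ ε i = 1 := fun i => by
      have := (A i).2
      have := (B i).2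
      have := hε i
      omega
    obtain ⟨j, hj⟩ := Function.ne_iff.1 hAB
    have h2 : ε j ≠ 0 := fun h => hj (Fin.ext (by have := hε j; omega))
    have h3 : ε ≠ 0 := fun h => h2 (congrFun h j)
    have h4 : ∑ i, ξ i * (ε i : ZMod r) = 0 := by
      simp only [hε, Int.cast_sub, mul_sub, sum_sub_distrib]
      exact sub_eq_zero.2 hsum
    have h5 : ∑ z ∈ S ×ˢ (univ : Finset (ZMod n)), ψ (∑ i, ξ i * π (z.1 i)) =
        ∑ x : Fin d → ZMod n, ψ (∑ i, ξ i * π (x i)) := by
      have hinj : Set.InjOn (fun (z : (Fin d → ZMod n) × ZMod n) i => z.1 i + z.2 * (ε i : ZMod n))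
          (S ×ˢ (univ : Finset (ZMod n)) : Finset _) := by
        rintro ⟨a, k⟩ ha ⟨b, l⟩ hb h
        have h6 : ∀ i, a i + k * (ε i : ZMod n) = b i + l * (ε i : ZMod n) := congrFun h
        have h7 := hA a (mem_product.1 ha).1 b (mem_product.1 hb).1 (k - l) ε h3 h1 fun i => by
          linear_combination -h6 i
        subst h7
        have h8 := add_left_cancel (h6 j)
        rcases h1 j with h9 | h9 | h9
        · rw [h9] at h8; simpa using h8
        · exact absurd h9 h2
        · rw [h9] at h8; simpa using h8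
      have hsurj : (S ×ˢ (univ : Finset (ZMod n))).image
          (fun (z : (Fin d → ZMod n) × ZMod n) i => z.1 i + z.2 * (ε i : ZMod n)) = univ := by
        refine eq_univ_of_card _ ?_
        rw [card_image_of_injOn hinj, card_product, hS, card_univ, ZMod.card, Fintype.card_fun,
          ZMod.card, Fintype.card_fin, ← pow_succ, Nat.sub_add_cancel hd]
      rw [← hsurj, sum_image hinj]
      refine sum_congr rfl fun z _ => congrArg ψ ?_
      simp only [map_add, map_mul, map_intCast, mul_add, sum_add_distrib, mul_left_comm (ξ _),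
        ← mul_sum, h4, mul_zero, add_zero]
    have h6 : ∑ x : Fin d → ZMod n, ψ (∑ i, ξ i * π (x i)) = 0 := by
      obtain ⟨m, hm⟩ := Function.ne_iff.1 hξ
      have h7 : ψ (ξ m) ≠ 1 := fun h => hm ((hψ.zmod_char_eq_one_iff r _).1 h)
      have h8 := Equiv.sum_comp (Equiv.addRight (Pi.single m 1 : Fin d → ZMod n))
        fun x : Fin d → ZMod n => ψ (∑ i, ξ i * π (x i))
      have h9 : ∀ x : Fin d → ZMod n,
          ψ (∑ i, ξ i * π ((Equiv.addRight (Pi.single m 1 : Fin d → ZMod n) x) i)) =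
          ψ (∑ i, ξ i * π (x i)) * ψ (ξ m) := fun x => by
        rw [← AddChar.map_add_eq_mul]
        congr 1
        simp [Pi.single_apply, mul_add, sum_add_distrib, apply_ite π]
      simp only [h9, ← sum_mul] at h8
      exact (mul_left_eq_self₀.1 (by rw [mul_comm]; exact h8)).resolve_left h7
    rw [h6, sum_product] at h5
    simp only [sum_const, card_univ, ZMod.card, nsmul_eq_mul, ← mul_sum] at h5
    exact (mul_eq_zero.1 h5).resolve_left (Nat.cast_ne_zero.2 (by omega))
  have h1 : ∑ ξ : Fin d → ZMod r, ∑ s ∈ S, ψ (∑ i, ξ i * π (s i)) = (n : ℂ) ^ (d - 1) := by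
    rw [sum_eq_single 0 (fun ξ _ h => key ξ h) (fun h => absurd (mem_univ _) h)]
    simp [hS]
  have h2 : ∀ s : Fin d → ZMod n, ∑ ξ : Fin d → ZMod r, ψ (∑ i, ξ i * π (s i)) =
      if ∀ i, π (s i) = 0 then (r : ℂ) ^ d else 0 := fun s => by
    simp only [hprod]
    rw [← Fintype.piFinset_univ, ← prod_univ_sum (fun _ => univ) fun i t => ψ (t * π (s i))]
    simp only [AddChar.sum_mulShift _ hψ, ZMod.card]
    split_ifs with h
    · simp [h]
    · obtain ⟨i, hi⟩ := not_forall.1 h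
      exact prod_eq_zero (mem_univ i) (by simp [hi])
  rw [sum_comm] at h1
  simp only [h2, ← sum_filter, sum_const, nsmul_eq_mul] at h1
  exact ⟨_, by rw [mul_comm]; exact_mod_cast h1.symm⟩

end Pool.Agent.Results.MP_7f0846_co.TorusNecessary
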